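import Pool.Agent.K9h6.T10.Gap

/-! helper56, T10 of the project 196: the consequences of `DHL[43,2]` and `DHL[42,2]` (hypothesis `DhlCount k`). -/

set_option autoImplicit false

open Finset Filter

namespace Pool.Agent.K9h6.T10

open Pool.Agent.H95R2.BG (Admissible TwoPrimes goodN)
open Pool.Agent.K9h6.C (DhlCount)

open Classical in
/-- many gaps at most 200 -/
theorem gaps200 (H : DhlCount 43) (ε : ℝ) (hε : 0 < ε) :
    ∀ᶠ x : ℝ in atTop, x ^ (1 - ε) ≤ (((Icc 1 ⌊x⌋₊).filter (fun n : ℕ =>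
      Nat.nth Nat.Prime n ≤ x ∧ Nat.nth Nat.Prime (n + 1) - Nat.nth Nat.Prime n ≤ 200)).card : ℝ) :=
  gaps_of_count H 200 tup43 tup43_admissible tup43_le ε hε

open Classical in
/-- many gaps at most 196 -/
theorem gaps196 (H : DhlCount 42) (ε : ℝ) (hε : 0 < ε) :
    ∀ᶠ x : ℝ in atTop, x ^ (1 - ε) ≤ (((Icc 1 ⌊x⌋₊).filter (fun n : ℕ =>
      Nat.nth Nat.Prime n ≤ x ∧ Nat.nth Nat.Prime (n + 1) - Nat.nth Nat.Prime n ≤ 196)).card : ℝ) :=
  gaps_of_count H 196 tup42 tup42_admissible tup42_le ε hε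

/-- many gaps at most `D`, by index set -/
theorem gaps_ncard {K : ℕ} (H : DhlCount K) (D : ℕ) (tup : Fin K → ℕ) (hadm : Admissible tup)
    (hle : ∀ i, tup i ≤ D) (ε : ℝ) (hε : 0 < ε) :
    ∀ᶠ x : ℝ in Filter.atTop,
      x ^ (1 - ε) ≤ (Set.ncard {n : ℕ | (Nat.nth Nat.Prime n : ℝ) ≤ x ∧
        Nat.nth Nat.Prime (n + 1) ≤ Nat.nth Nat.Prime n + D} : ℝ) := by
  classical
  filter_upwards [gaps_of_count H D tup hadm hle ε hε] with x h
  refine h.trans ?_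
  have hfin : {n : ℕ | (Nat.nth Nat.Prime n : ℝ) ≤ x ∧
        Nat.nth Nat.Prime (n + 1) ≤ Nat.nth Nat.Prime n + D}.Finite := by
    apply (Set.finite_Iic ⌊x⌋₊).subset
    intro n hn
    have h1 : n ≤ Nat.nth Nat.Prime n := (Nat.nth_strictMono Nat.infinite_setOfPred_prime).le_apply
    exact h1.trans (Nat.le_floor hn.1)
  rw [← Set.ncard_coe_finset]
  have hsub : (((Finset.Icc 1 ⌊x⌋₊).filter (fun n : ℕ =>
      (Nat.nth Nat.Prime n : ℝ) ≤ x ∧ Nat.nth Nat.Prime (n + 1) - Nat.nth Nat.Prime n ≤ D) : Finset ℕ) : Set ℕ) ⊆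
      {n : ℕ | (Nat.nth Nat.Prime n : ℝ) ≤ x ∧ Nat.nth Nat.Prime (n + 1) ≤ Nat.nth Nat.Prime n + D} := by
    intro n hn
    rw [Finset.mem_coe, Finset.mem_filter] at hn
    exact ⟨hn.2.1, by have := hn.2.2; omega⟩
  exact_mod_cast Set.ncard_le_ncard hsub hfin

/-- one of `2N, 4N, ..., 200N` is a gap between consecutive primes, often -/
theorem multiple_gap100 (H : DhlCount 43) (N : ℕ) (hN : 0 < N) :
    ∃ k : ℕ, 1 ≤ k ∧ k ≤ 100 ∧ ∀ ε : ℝ, 0 < ε → ∃ᶠ x : ℝ in atTop,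
      x ^ (1 - ε) ≤ ((gapSet ((k : ℤ) * (2 * N)) x).ncard : ℝ) :=
  multiple_gap (by norm_num) H 100 tup43 tup43_admissible tup43_le tup43_even N hN

/-- one of `2N, 4N, ..., 196N` is a gap between consecutive primes, often -/
theorem multiple_gap98 (H : DhlCount 42) (N : ℕ) (hN : 0 < N) :
    ∃ k : ℕ, 1 ≤ k ∧ k ≤ 98 ∧ ∀ ε : ℝ, 0 < ε → ∃ᶠ x : ℝ in atTop,
      x ^ (1 - ε) ≤ ((gapSet ((k : ℤ) * (2 * N)) x).ncard : ℝ) :=
  multiple_gap (by norm_num) H 98 tup42 tup42_admissible tup42_le tup42_even N hN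

end Pool.Agent.K9h6.T10
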